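import Pool.Agent.QSN.StmtsD

set_option autoImplicit false

/-! Row SAC of squad QSN (MP_dc0713_gt): the multiplicities for an active weight. -/

namespace Pool.Agent.QSN.H85

open Matrix Finset Pool.Agent.QSX Pool.Agent.QSN

/-- An entry of `t i j x`, linear in `x`. -/
def ent {n m : ℕ} {D D' : Type} [Ring D] [Algebra ℝ D] [Ring D'] [Algebra ℝ D']
    (S : SLW n m D D') (i j : Fin n) (p q : Fin m) : D →ₗ[ℝ] D' where
  toFun x := S.t i j x p q
  map_add' x y := by rw [map_add, Matrix.add_apply]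
  map_smul' c x := by rw [map_smul, Matrix.smul_apply, RingHom.id_apply]

theorem mu_pos {m : ℕ} {α : Type} (w : Fin m → α) (ν : α) (q : Fin m) (h : w q = ν) :
    1 ≤ mu w ν := by
  unfold mu
  have : Nonempty {p : Fin m // w p = ν} := ⟨⟨q, h⟩⟩
  exact Nat.card_pos

theorem sac : SacStmt := by
  intro N m D D' _ _ _ _ _ _ hinv S r hr μ hact
  classical
  obtain ⟨p, q, x0, hq, hne⟩ := hact
  have h0la : (0 : Fin (N + 2)) < la N := Fin.last_pos
  have hwp : S.w p = μ + ep 0 (la N) := by
    rw [← hq]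
    exact S.sup 0 (la N) h0la x0 p q hne
  refine ⟨mu_pos S.w μ q hq, mu_pos S.w _ p hwp, fun j => ?_⟩
  have h1 : (0 : Fin (N + 2)) < md j := Fin.succ_pos _
  have h2 : md j < la N := by
    unfold md la
    rw [Fin.lt_def, Fin.val_succ, Fin.val_castSucc, Fin.val_last]
    omega
  let A : Type := {s : Fin m // S.w s = μ + ep (md j) (la N)}
  let B : Type := {s : Fin m // S.w s = μ + ep 0 (md j)}
  let Φ : D →ₗ[ℝ] (A ⊕ B → D') := LinearMap.pi fun c =>
    Sum.elim (fun s : A => ent S 0 (md j) p s.1) (fun s : B => ent S 0 (md j) s.1 q) c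
  have hinj : Function.Injective Φ := by
    rw [injective_iff_map_eq_zero]
    intro x hx
    by_contra hx0
    obtain ⟨x', hx'⟩ := hinv x hx0
    apply hne
    have hA : ∀ s : A, S.t 0 (md j) x p s.1 = 0 := fun s => congrFun hx (Sum.inl s)
    have hB : ∀ s : B, S.t 0 (md j) x s.1 q = 0 := fun s => congrFun hx (Sum.inr s)
    have e : x * (x' * x0) = x0 := by rw [← mul_assoc, hx', one_mul]
    have hbr := S.br 0 (md j) (la N) h1 h2 x (x' * x0)
    rw [e] at hbr
    rw [← hbr, Matrix.sub_apply, Matrix.mul_apply, Matrix.mul_apply]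
    have z1 : ∑ s, S.t 0 (md j) x p s * S.t (md j) (la N) (x' * x0) s q = 0 := by
      refine Finset.sum_eq_zero fun s _ => ?_
      by_cases hs : S.t (md j) (la N) (x' * x0) s q = 0
      · rw [hs, mul_zero]
      · have hw := S.sup (md j) (la N) h2 _ s q hs
        rw [hq] at hw
        rw [hA ⟨s, hw⟩, zero_mul]
    have z2 : ∑ s, S.t (md j) (la N) (x' * x0) p s * S.t 0 (md j) x s q = 0 := by
      refine Finset.sum_eq_zero fun s _ => ?_
      by_cases hs : S.t 0 (md j) x s q = 0
      · rw [hs, mul_zero]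
      · have hw := S.sup 0 (md j) h1 _ s q hs
        rw [hq] at hw
        exact absurd (hB ⟨s, hw⟩) hs
    rw [z1, z2, sub_zero]
  have hle := LinearMap.finrank_le_finrank_of_injective hinj
  rw [Module.finrank_pi_fintype, Finset.sum_const, Finset.card_univ, smul_eq_mul] at hle
  have hlt := hr.trans_le hle
  have hs := Nat.lt_of_mul_lt_mul_right hlt
  have hcard : Fintype.card (A ⊕ B) =
      mu S.w (μ + ep (md j) (la N)) + mu S.w (μ + ep 0 (md j)) := by
    unfold mu
    rw [Fintype.card_sum, Nat.card_eq_fintype_card, Nat.card_eq_fintype_card]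
  rw [hcard] at hs
  omega

end Pool.Agent.QSN.H85
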