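import Pool.Agent.QSN.StmtsB
import Pool.Agent.Helper75_QSX.TYP
import Pool.Agent.Helper43_QSX.ERG
import Pool.Agent.Helper8_QSX.HIL
import Pool.Agent.Helper69_QSX.NIN

set_option autoImplicit false

/-! Row TYQ of squad QSN (MP_dc0713_gt): the differentiation theorem for most elements of finite
families of arbitrary size. -/

namespace Pool.Agent.QSN.H85

open Filter Topology Pool.Agent.QSX Pool.Agent.QSN Pool.Agent.QSX.H75

theorem tyq : TyqStmt := by
  have hHIL := Pool.Agent.QSX.H8.hil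
  have hERG := Pool.Agent.QSX.H43.erg
  have hNIN := Pool.Agent.QSX.H69.nin
  intro G _ M hM V _ _ VX _ _ _ d
  classical
  obtain ⟨Hs, i1, i2, i3, J, R, hJ, hR, hRm⟩ := hHIL G M hM V
  let b : G → BF G V := fun u =>
    ⟨fun x => d.h (x * u) - d.h x, ⟨d.L * d.ℓ u + d.C, fun x => d.lip x u⟩⟩
  have hbx : ∀ u x, (b u : G → V) x = d.h (x * u) - d.h x := fun u x => rfl
  have hb : ∀ u v, b (u * v) = b u + shift u (b v) := by
    intro u v
    apply Subtype.ext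
    funext x
    rw [Submodule.coe_add, Pi.add_apply, shift_apply, hbx, hbx, hbx, mul_assoc]
    abel
  have hB : ∀ u v, J (b (u * v)) = J (b u) + R u (J (b v)) := by
    intro u v
    rw [hb, map_add, hR]
  -- norm bound
  have hJn : ∀ (p : BF G V) (c : ℝ), 0 ≤ c → (∀ x, ‖(p : G → V) x‖ ≤ c) → ‖J p‖ ≤ c := by
    intro p c hc hp
    have h1 : ‖J p‖ ^ 2 ≤ c ^ 2 := by
      rw [hJ]
      have h2 : ∀ x, ‖(p : G → V) x‖ ^ 2 ≤ c ^ 2 := fun x =>
        pow_le_pow_left₀ (norm_nonneg _) (hp x) 2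
      calc M (fun x => ‖(p : G → V) x‖ ^ 2) ≤ M (fun _ => c ^ 2) :=
            mean_mono hM ⟨c ^ 2, fun x => by rw [abs_of_nonneg (by positivity)]; exact h2 x⟩
              ⟨c ^ 2, fun x => by rw [abs_of_nonneg (by positivity)]⟩ h2
        _ = c ^ 2 := mean_const hM _
    exact (pow_le_pow_iff_left₀ (norm_nonneg _) hc two_ne_zero).1 h1
  have hc0 : ∀ u, 0 ≤ d.L * d.ℓ u + d.C := fun u => (norm_nonneg _).trans (d.lip 1 u)
  have hBn : ∀ u, ‖J (b u)‖ ≤ d.L * d.ℓ u + d.C := fun u =>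
    hJn _ _ (hc0 u) (fun x => d.lip x u)
  have hBA : ∀ a, ‖J (b (d.A a))‖ ≤ d.L * d.K * ‖a‖ + d.C := by
    intro a
    refine (hBn _).trans (add_le_add ?_ le_rfl)
    rw [mul_assoc]
    exact mul_le_mul_of_nonneg_left (d.len a) d.L0
  obtain ⟨P, hP1, hP2, hP3⟩ := hERG G VX d.A Hs R (fun u => J (b u)) (d.L * d.K) d.C d.add hRm hB
    (mul_nonneg d.L0 d.K0) d.C0 hBA
  have hinv : ∀ n ∈ d.Nn, ∀ a, R n (P a) = P a := by
    intro n hn
    refine (hNIN G VX d.A Hs R (fun u => J (b u)) P d.D n d.add hRm hB hP2 hP3 d.span ?_).1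
    intro a ha
    obtain ⟨C', hC'⟩ := d.con n hn a ha
    exact ⟨d.L * C' + d.C, fun j => (hBn _).trans
      (add_le_add (mul_le_mul_of_nonneg_left (hC' j) d.L0) le_rfl)⟩
  -- the basis
  let bs := Module.finBasis ℝ VX
  let cf : Fin (Module.finrank ℝ VX) → (VX →L[ℝ] ℝ) := fun i =>
    LinearMap.toContinuousLinearMap (bs.coord i)
  have hcf : ∀ i a, cf i a = bs.coord i a := fun i a => rfl
  let K' : ℝ := ∑ i, ‖cf i‖ * (d.L * (d.K * ‖bs i‖) + d.C)
  have hK' : 0 ≤ K' := Finset.sum_nonneg fun i _ => mul_nonneg (norm_nonneg _)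
    (add_nonneg (mul_nonneg d.L0 (mul_nonneg d.K0 (norm_nonneg _))) d.C0)
  refine ⟨K', hK', ?_⟩
  intro K0 ε I _ hε
  have hLK : 0 ≤ d.L * d.K := mul_nonneg d.L0 d.K0
  have hden : 0 < 1 + d.L * d.K + K' := by linarith
  set ε' : ℝ := ε / (8 * (1 + d.L * d.K + K')) with hε'def
  have hε' : 0 < ε' := by positivity
  have hε'2 : (d.L * d.K + K') * ε' ≤ ε / 8 := by
    have h1 : (1 + d.L * d.K + K') * ε' = ε / 8 := by
      rw [hε'def]; field_simp
    nlinarith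
  obtain ⟨B0, -, hfin, hcov⟩ := (isCompact_closedBall (0 : VX) 1).finite_cover_balls hε'
  set F : Finset VX := hfin.toFinset with hF
  have hnet : ∀ a : VX, ‖a‖ ≤ 1 → ∃ a' ∈ F, ‖a - a'‖ ≤ ε' := by
    intro a ha
    have h1 := hcov (mem_closedBall_zero_iff.2 ha)
    rw [Set.mem_iUnion₂] at h1
    obtain ⟨a', ha', h2⟩ := h1
    refine ⟨a', hfin.mem_toFinset.2 ha', ?_⟩
    rw [← dist_eq_norm]
    exact (Metric.mem_ball.1 h2).le
  set δ : ℝ := ε * (ε / 4) ^ 2 / (2 * (((Fintype.card I : ℕ) : ℝ) + 1) * ((F.card : ℝ) + 1))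
    with hδdef
  have hδ : 0 < δ := by positivity
  set D0 : ℝ := |d.L * K0 + d.C| with hD0
  -- the bounds
  have hgt : ∀ a, Tendsto (fun j : ℕ => (j : ℝ)⁻¹ * D0 +
      ‖((j : ℝ)⁻¹) • J (b (d.A ((j : ℝ) • a))) - P a‖ +
      ‖P a - ∑ i, (cf i a) • (((j : ℝ)⁻¹) • J (b (d.A ((j : ℝ) • bs i))))‖) atTop (𝓝 0) := by
    intro a
    have h1 : Tendsto (fun j : ℕ => (j : ℝ)⁻¹ * D0) atTop (𝓝 0) := by
      simpa using (tendsto_inv_atTop_nhds_zero_nat (𝕜 := ℝ)).mul_const D0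
    have h2 : Tendsto (fun j : ℕ => ‖((j : ℝ)⁻¹) • J (b (d.A ((j : ℝ) • a))) - P a‖) atTop
        (𝓝 0) := by
      have := ((hP2 a).sub_const (P a)).norm
      simpa using this
    have h3 : Tendsto (fun j : ℕ => ‖P a - ∑ i, (cf i a) • (((j : ℝ)⁻¹) •
        J (b (d.A ((j : ℝ) • bs i))))‖) atTop (𝓝 0) := by
      have h4 : Tendsto (fun j : ℕ => ∑ i, (cf i a) • (((j : ℝ)⁻¹) • J (b (d.A ((j : ℝ) • bs i)))))
          atTop (𝓝 (∑ i, (cf i a) • P (bs i))) :=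
        tendsto_finsetSum _ fun i _ => (hP2 (bs i)).const_smul _
      have e : P a - ∑ i, (cf i a) • P (bs i) = 0 := by
        rw [sub_eq_zero]
        conv_lhs => rw [← bs.sum_repr a]
        rw [map_sum]
        refine Finset.sum_congr rfl fun i _ => ?_
        rw [map_smul]
        rfl
      have h5 := (h4.const_sub (P a)).norm
      rw [e, norm_zero] at h5
      exact h5
    simpa using (h1.add h2).add h3
  have hgev : ∀ᶠ j : ℕ in atTop, ∀ a ∈ F, ((j : ℝ)⁻¹ * D0 +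
      ‖((j : ℝ)⁻¹) • J (b (d.A ((j : ℝ) • a))) - P a‖ +
      ‖P a - ∑ i, (cf i a) • (((j : ℝ)⁻¹) • J (b (d.A ((j : ℝ) • bs i))))‖) ^ 2 < δ := by
    rw [Filter.eventually_all_finset]
    intro a _
    have h := (hgt a).pow 2
    rw [zero_pow two_ne_zero] at h
    exact h.eventually_lt_const hδ
  have hCev : ∀ᶠ j : ℕ in atTop, d.C ≤ ε / 8 * j := by
    have h := (tendsto_natCast_atTop_atTop (R := ℝ)).const_mul_atTop (by positivity : 0 < ε / 8)
    exact h.eventually_ge_atTop d.C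
  obtain ⟨N, hN⟩ := eventually_atTop.1 (hgev.and hCev)
  refine ⟨max N 1, le_max_right _ _, ?_⟩
  intro j hj Ω _ _ w hw
  obtain ⟨hgj, hCj⟩ := hN j ((le_max_left _ _).trans hj)
  have hj1' : 1 ≤ j := (le_max_right _ _).trans hj
  have hjr : (1 : ℝ) ≤ j := by exact_mod_cast hj1'
  have hjp : (0 : ℝ) < j := lt_of_lt_of_le one_pos hjr
  let Δ : G → VX → BF G V := fun n a =>
    ((j : ℝ)⁻¹) • b (n * d.A ((j : ℝ) • a)) -
      ∑ i, (cf i a) • (((j : ℝ)⁻¹) • b (d.A ((j : ℝ) • bs i)))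
  have hJΔ : ∀ n ∈ d.Nn, d.ℓ n ≤ K0 → ∀ a ∈ F, ‖J (Δ n a)‖ ^ 2 ≤ δ := by
    intro n hn hl a ha
    refine le_trans (pow_le_pow_left₀ (norm_nonneg _) ?_ 2) (hgj a ha).le
    have e1 : J (Δ n a) = (((j : ℝ)⁻¹) • J (b n) +
        R n (((j : ℝ)⁻¹) • J (b (d.A ((j : ℝ) • a))) - P a)) +
        (P a - ∑ i, (cf i a) • (((j : ℝ)⁻¹) • J (b (d.A ((j : ℝ) • bs i))))) := by
      have e2 : J (Δ n a) = ((j : ℝ)⁻¹) • J (b (n * d.A ((j : ℝ) • a))) -
          ∑ i, (cf i a) • (((j : ℝ)⁻¹) • J (b (d.A ((j : ℝ) • bs i)))) := by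
        simp only [Δ, map_sub, map_smul, map_sum]
      rw [e2, hB, map_sub, map_smul, hinv n hn a, smul_add]
      abel
    rw [e1]
    refine (norm_add_le _ _).trans (add_le_add ((norm_add_le _ _).trans (add_le_add ?_ ?_)) le_rfl)
    · rw [norm_smul, Real.norm_of_nonneg (inv_nonneg.2 hjp.le)]
      refine mul_le_mul_of_nonneg_left ?_ (inv_nonneg.2 hjp.le)
      refine (hBn n).trans (le_trans ?_ (le_abs_self _))
      exact add_le_add (mul_le_mul_of_nonneg_left hl d.L0) le_rfl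
    · rw [LinearIsometry.norm_map]
  let T : Finset ((I × Ω) × VX) := Finset.univ ×ˢ F
  -- the good point
  obtain ⟨x, hx⟩ : ∃ x : G, ∑ t ∈ T, ‖(Δ (w t.1.1 t.1.2) t.2 : G → V) x‖ ^ 2 <
      Fintype.card Ω * (ε * (ε / 4) ^ 2) := by
    by_contra hcon
    push Not at hcon
    have hbd : ∀ t ∈ T, ∃ C, ∀ x, |‖(Δ (w t.1.1 t.1.2) t.2 : G → V) x‖ ^ 2| ≤ C := by
      intro t _
      obtain ⟨C, hC⟩ := (Δ (w t.1.1 t.1.2) t.2).2
      refine ⟨C ^ 2, fun x => ?_⟩
      rw [abs_of_nonneg (by positivity)]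
      exact pow_le_pow_left₀ (norm_nonneg _) (hC x) 2
    obtain ⟨h1, h2⟩ := mean_sum hM T (fun t x => ‖(Δ (w t.1.1 t.1.2) t.2 : G → V) x‖ ^ 2) hbd
    have h3 : Fintype.card Ω * (ε * (ε / 4) ^ 2) ≤
        M (fun x => ∑ t ∈ T, ‖(Δ (w t.1.1 t.1.2) t.2 : G → V) x‖ ^ 2) := by
      calc Fintype.card Ω * (ε * (ε / 4) ^ 2) =
            M (fun _ => Fintype.card Ω * (ε * (ε / 4) ^ 2)) := (mean_const hM _).symm
        _ ≤ _ := mean_mono hM ⟨Fintype.card Ω * (ε * (ε / 4) ^ 2), fun x => by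
            rw [abs_of_nonneg (by positivity)]⟩ h1 hcon
    rw [h2] at h3
    have h4 : ∑ t ∈ T, M (fun x => ‖(Δ (w t.1.1 t.1.2) t.2 : G → V) x‖ ^ 2) ≤ T.card • δ := by
      refine Finset.sum_le_card_nsmul _ _ _ fun t ht => ?_
      rw [← hJ]
      exact hJΔ _ (hw _ _).1 (hw _ _).2 _ (Finset.mem_product.1 ht).2
    have h5 : (T.card : ℝ) = Fintype.card I * Fintype.card Ω * F.card := by
      simp only [T, Finset.card_product, Finset.card_univ, Fintype.card_prod]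
      push_cast
      ring
    rw [nsmul_eq_mul, h5] at h4
    have h6 := h3.trans h4
    have hΩ : (0 : ℝ) < Fintype.card Ω := by exact_mod_cast Fintype.card_pos
    have h7 : δ * (2 * (((Fintype.card I : ℕ) : ℝ) + 1) * ((F.card : ℝ) + 1)) =
        ε * (ε / 4) ^ 2 := by
      rw [hδdef]; field_simp
    have h8 : 0 < ε * (ε / 4) ^ 2 := by positivity
    have h9 : (Fintype.card I : ℝ) * F.card ≤
        (((Fintype.card I : ℕ) : ℝ) + 1) * ((F.card : ℝ) + 1) := by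
      have : (0 : ℝ) ≤ Fintype.card I := by positivity
      have : (0 : ℝ) ≤ F.card := by positivity
      nlinarith
    have h10 : (Fintype.card I : ℝ) * Fintype.card Ω * F.card * δ ≤
        Fintype.card Ω * (ε * (ε / 4) ^ 2 / 2) := by
      calc (Fintype.card I : ℝ) * Fintype.card Ω * F.card * δ =
            Fintype.card Ω * ((Fintype.card I : ℝ) * F.card * δ) := by ring
        _ ≤ Fintype.card Ω * ((((Fintype.card I : ℕ) : ℝ) + 1) * ((F.card : ℝ) + 1) * δ) :=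
            mul_le_mul_of_nonneg_left (mul_le_mul_of_nonneg_right h9 hδ.le) hΩ.le
        _ = Fintype.card Ω * (ε * (ε / 4) ^ 2 / 2) := by rw [← h7]; ring
    have h11 := h6.trans h10
    have h12 : (Fintype.card Ω : ℝ) * (ε * (ε / 4) ^ 2 / 2) <
        Fintype.card Ω * (ε * (ε / 4) ^ 2) :=
      mul_lt_mul_of_pos_left (by linarith) hΩ
    linarith
  let v : Fin (Module.finrank ℝ VX) → V := fun i =>
    ((j : ℝ)⁻¹) • (d.h (x * d.A ((j : ℝ) • bs i)) - d.h x)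
  have hv : ∀ i, ‖v i‖ ≤ d.L * (d.K * ‖bs i‖) + d.C := by
    intro i
    have h1 : ‖d.h (x * d.A ((j : ℝ) • bs i)) - d.h x‖ ≤ d.L * (d.K * (j * ‖bs i‖)) + d.C := by
      refine (d.lip _ _).trans (add_le_add (mul_le_mul_of_nonneg_left ?_ d.L0) le_rfl)
      refine (d.len _).trans (le_of_eq ?_)
      rw [norm_smul, Real.norm_of_nonneg hjp.le]
    calc ‖v i‖ = (j : ℝ)⁻¹ * ‖d.h (x * d.A ((j : ℝ) • bs i)) - d.h x‖ := by
          rw [norm_smul, Real.norm_of_nonneg (inv_nonneg.2 hjp.le)]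
      _ ≤ (j : ℝ)⁻¹ * (d.L * (d.K * (j * ‖bs i‖)) + d.C) :=
          mul_le_mul_of_nonneg_left h1 (inv_nonneg.2 hjp.le)
      _ = d.L * (d.K * ‖bs i‖) + (j : ℝ)⁻¹ * d.C := by field_simp
      _ ≤ d.L * (d.K * ‖bs i‖) + d.C := by
          have : (j : ℝ)⁻¹ * d.C ≤ 1 * d.C :=
            mul_le_mul_of_nonneg_right (inv_le_one_of_one_le₀ hjr) d.C0
          linarith
  let Q : VX →ₗ[ℝ] V := ∑ i, ((cf i : VX →ₗ[ℝ] ℝ)).smulRight (v i)
  have hQ : ∀ a, Q a = ∑ i, (cf i a) • v i := by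
    intro a
    simp only [Q, LinearMap.sum_apply, LinearMap.smulRight_apply]
    rfl
  have hQn : ∀ a, ‖Q a‖ ≤ K' * ‖a‖ := by
    intro a
    rw [hQ, Finset.sum_mul]
    refine (norm_sum_le _ _).trans (Finset.sum_le_sum fun i _ => ?_)
    rw [norm_smul]
    calc ‖cf i a‖ * ‖v i‖ ≤ (‖cf i‖ * ‖a‖) * (d.L * (d.K * ‖bs i‖) + d.C) :=
          mul_le_mul ((cf i).le_opNorm a) (hv i) (norm_nonneg _)
            (mul_nonneg (norm_nonneg _) (norm_nonneg _))
      _ = ‖cf i‖ * (d.L * (d.K * ‖bs i‖) + d.C) * ‖a‖ := by ring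
  refine ⟨x, Q, hQn, ?_⟩
  · intro i
    have hΔx : ∀ n a, d.h (x * n * d.A ((j : ℝ) • a)) - d.h x - (j : ℝ) • Q a =
        (j : ℝ) • (Δ n a : G → V) x := by
      intro n a
      have e1 : (Δ n a : G → V) x = ((j : ℝ)⁻¹) • (d.h (x * (n * d.A ((j : ℝ) • a))) - d.h x) -
          ∑ i, (cf i a) • v i := by
        simp only [Δ, Submodule.coe_sub, Pi.sub_apply, Submodule.coe_smul, Pi.smul_apply,
          Submodule.coe_sum, Finset.sum_apply, hbx, v]
      rw [e1, hQ, smul_sub, smul_smul, mul_inv_cancel₀ hjp.ne', one_smul, mul_assoc]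
    let S : Finset Ω := Finset.univ.filter fun o => ∃ a' ∈ F, ε / 4 < ‖(Δ (w i o) a' : G → V) x‖
    have hsub : {o : Ω | ∃ a : VX, ‖a‖ ≤ 1 ∧
        ε * j < ‖d.h (x * w i o * d.A ((j : ℝ) • a)) - d.h x - (j : ℝ) • Q a‖} ⊆ (S : Set Ω) := by
      intro o ho
      obtain ⟨a, ha, hbad⟩ := ho
      rw [Finset.mem_coe, Finset.mem_filter]
      refine ⟨Finset.mem_univ _, ?_⟩
      by_contra hcon
      push Not at hcon
      obtain ⟨a', ha', hd⟩ := hnet a ha
      have h1 : ‖d.h (x * w i o * d.A ((j : ℝ) • a)) - d.h (x * w i o * d.A ((j : ℝ) • a'))‖ ≤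
          d.L * d.K * (j * ε') + d.C := by
        have e2 : x * w i o * d.A ((j : ℝ) • a) =
            x * w i o * d.A ((j : ℝ) • a') * d.A ((j : ℝ) • (a - a')) := by
          rw [mul_assoc (x * w i o), ← d.add, ← smul_add]
          congr 3
          abel
        rw [e2]
        refine (d.lip _ _).trans (add_le_add ?_ le_rfl)
        rw [mul_assoc]
        refine mul_le_mul_of_nonneg_left ((d.len _).trans ?_) d.L0
        refine mul_le_mul_of_nonneg_left ?_ d.K0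
        rw [norm_smul, Real.norm_of_nonneg hjp.le]
        exact mul_le_mul_of_nonneg_left hd hjp.le
      have h2 : ‖d.h (x * w i o * d.A ((j : ℝ) • a')) - d.h x - (j : ℝ) • Q a'‖ ≤ j * (ε / 4) := by
        rw [hΔx, norm_smul, Real.norm_of_nonneg hjp.le]
        exact mul_le_mul_of_nonneg_left (hcon a' ha') hjp.le
      have h3 : ‖(j : ℝ) • Q (a - a')‖ ≤ j * (K' * ε') := by
        rw [norm_smul, Real.norm_of_nonneg hjp.le]
        refine mul_le_mul_of_nonneg_left ?_ hjp.le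
        exact (hQn _).trans (mul_le_mul_of_nonneg_left hd hK')
      have e3 : d.h (x * w i o * d.A ((j : ℝ) • a)) - d.h x - (j : ℝ) • Q a =
          (d.h (x * w i o * d.A ((j : ℝ) • a)) - d.h (x * w i o * d.A ((j : ℝ) • a'))) +
          (d.h (x * w i o * d.A ((j : ℝ) • a')) - d.h x - (j : ℝ) • Q a') -
          (j : ℝ) • Q (a - a') := by
        rw [map_sub, smul_sub]
        abel
      have h4 : ‖d.h (x * w i o * d.A ((j : ℝ) • a)) - d.h x - (j : ℝ) • Q a‖ ≤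
          d.L * d.K * (j * ε') + d.C + j * (ε / 4) + j * (K' * ε') := by
        rw [e3]
        exact (norm_sub_le _ _).trans (add_le_add ((norm_add_le _ _).trans (add_le_add h1 h2)) h3)
      have h5 : (j : ℝ) * ((d.L * d.K + K') * ε') ≤ j * (ε / 8) :=
        mul_le_mul_of_nonneg_left hε'2 hjp.le
      have h6 : 0 < ε * j := by positivity
      nlinarith
    have h1 : (({o : Ω | ∃ a : VX, ‖a‖ ≤ 1 ∧
        ε * j < ‖d.h (x * w i o * d.A ((j : ℝ) • a)) - d.h x - (j : ℝ) • Q a‖}.ncard : ℕ) : ℝ) ≤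
        (S.card : ℝ) := by
      have := Set.ncard_le_ncard hsub S.finite_toSet
      rw [Set.ncard_coe_finset] at this
      exact_mod_cast this
    refine h1.trans ?_
    have h2 : (S.card : ℝ) * (ε / 4) ^ 2 ≤
        ∑ t ∈ T, ‖(Δ (w t.1.1 t.1.2) t.2 : G → V) x‖ ^ 2 := by
      have e4 : ∑ t ∈ T, ‖(Δ (w t.1.1 t.1.2) t.2 : G → V) x‖ ^ 2 =
          ∑ i', ∑ o, ∑ a ∈ F, ‖(Δ (w i' o) a : G → V) x‖ ^ 2 := by
        rw [Finset.sum_product, Fintype.sum_prod_type]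
      rw [e4]
      have h3 : ∑ o ∈ S, (ε / 4) ^ 2 ≤ ∑ o ∈ S, ∑ a ∈ F, ‖(Δ (w i o) a : G → V) x‖ ^ 2 := by
        refine Finset.sum_le_sum fun o ho => ?_
        obtain ⟨a', ha', h4⟩ := (Finset.mem_filter.1 ho).2
        refine (pow_le_pow_left₀ (by positivity) h4.le 2).trans ?_
        exact Finset.single_le_sum (f := fun a => ‖(Δ (w i o) a : G → V) x‖ ^ 2)
          (fun a _ => by positivity) ha'
      rw [Finset.sum_const, nsmul_eq_mul] at h3
      refine h3.trans ?_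
      refine (Finset.sum_le_sum_of_subset_of_nonneg (Finset.subset_univ S) fun o _ _ =>
        Finset.sum_nonneg fun a _ => by positivity).trans ?_
      exact Finset.single_le_sum (f := fun i' => ∑ o, ∑ a ∈ F, ‖(Δ (w i' o) a : G → V) x‖ ^ 2)
        (fun i' _ => Finset.sum_nonneg fun o _ => Finset.sum_nonneg fun a _ => by positivity)
        (Finset.mem_univ i)
    have h3 : (S.card : ℝ) * (ε / 4) ^ 2 < ε * Fintype.card Ω * (ε / 4) ^ 2 := by
      refine (h2.trans_lt hx).trans_eq ?_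
      ring
    exact (lt_of_mul_lt_mul_right h3 (by positivity)).le

end Pool.Agent.QSN.H85
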